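import Mathlib
import Pool.Agent.H744R2.KZ.Props
import Pool.Agent.H674R2.Kad3.Word

/-! The Dixmier property of the fibres with a tracial state. -/

open scoped ComplexOrder InnerProductSpace ComplexConjugate Topology
open Finset Filter

noncomputable section

namespace H744R2.KZ

open H759R2.Kad

universe u

theorem prove_N_dix (h1 : X_dat.{u}) : N_dix.{u} := by
  intro H _ _ _ M z B _ p hp τ hτ b hb ε hε
  letI : PartialOrder B := CStarAlgebra.spectralOrder B
  haveI : StarOrderedRing B := CStarAlgebra.spectralOrderedRing B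
  haveI : Nontrivial B := by
    refine ⟨⟨0, 1, fun h => ?_⟩⟩
    have h2 := hτ.one
    rw [← h, map_zero] at h2
    exact zero_ne_one h2
  obtain ⟨a0, ha0⟩ := hp.surj b
  obtain ⟨a, ha⟩ : ∃ a : M.toStarSubalgebra, a = (2 : ℂ)⁻¹ • (a0 + star a0) := ⟨_, rfl⟩
  have hsa : IsSelfAdjoint a := by
    rw [ha, isSelfAdjoint_iff, star_smul, star_add, star_star, add_comm]
    congr 1
    simp
  have hpa : p a = b := by
    rw [ha, map_smul, map_add, map_star, ha0, hb.star_eq, ← two_smul ℂ b, smul_smul]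
    norm_num
  obtain ⟨N, g, c, hc, hbd⟩ := h1 H M a hsa (ε / 2) (by positivity)
  obtain ⟨s, hs⟩ := hp.scal c hc
  have hg1 : ∀ k, p (g k : M.toStarSubalgebra) ∈ unitary B := by
    intro k
    have h2 := (g k).2
    rw [Unitary.mem_iff] at h2 ⊢
    constructor
    · rw [← map_star, ← map_mul, h2.1, map_one]
    · rw [← map_star, ← map_mul, h2.2, map_one]
  refine ⟨N, fun k => ⟨p (g k : M.toStarSubalgebra), hg1 k⟩, ?_⟩
  set S : B := ((N + 1 : ℂ))⁻¹ • ∑ k, p (g k : M.toStarSubalgebra) * b *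
    star (p (g k : M.toStarSubalgebra)) with hS
  change ‖S - algebraMap ℂ B (τ b)‖ ≤ ε
  have hpS : p (((N + 1 : ℂ))⁻¹ • ∑ k, (g k : M.toStarSubalgebra) * a *
        star (g k : M.toStarSubalgebra) - c) = S - algebraMap ℂ B s := by
    rw [map_sub, map_smul, map_sum, hs, hS]
    congr 3
    ext k
    rw [map_mul, map_mul, map_star, hpa]
  have hn : ‖S - algebraMap ℂ B s‖ ≤ ε / 2 := by
    rw [← hpS]
    exact (NonUnitalStarAlgHom.norm_apply_le p _).trans hbd
  have hτS : τ S = τ b := by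
    rw [hS, map_smul, map_sum]
    have h2 : ∀ k : Fin (N + 1), τ (p (g k : M.toStarSubalgebra) * b *
        star (p (g k : M.toStarSubalgebra))) = τ b := by
      intro k
      rw [hτ.comm, ← mul_assoc, (Unitary.mem_iff.mp (hg1 k)).1, one_mul]
    rw [Finset.sum_congr rfl fun k _ => h2 k, Finset.sum_const, Finset.card_univ,
      Fintype.card_fin, nsmul_eq_mul, smul_eq_mul, ← mul_assoc]
    push_cast
    have h3 : (N + 1 : ℂ) ≠ 0 := by
      exact_mod_cast Nat.succ_ne_zero N
    rw [inv_mul_cancel₀ h3, one_mul]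
  have hτs : ‖τ b - s‖ ≤ ε / 2 := by
    have h2 : τ (S - algebraMap ℂ B s) = τ b - s := by
      rw [map_sub, hτS, Algebra.algebraMap_eq_smul_one, map_smul, hτ.one, smul_eq_mul, mul_one]
    rw [← h2]
    exact (A06.tau_norm_le hτ _).trans hn
  have e1 : S - algebraMap ℂ B (τ b) = (S - algebraMap ℂ B s) - algebraMap ℂ B (τ b - s) := by
    rw [map_sub]
    abel
  rw [e1]
  refine (norm_sub_le _ _).trans ?_
  have h3 : ‖algebraMap ℂ B (τ b - s)‖ = ‖τ b - s‖ := norm_algebraMap' B _
  rw [h3]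
  linarith

end H744R2.KZ
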